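import Pool.Agent.R550.RD.Fin
import Pool.Agent.R550.RD.Wi
import Pool.Agent.R550.RD.Tr
import Pool.Agent.R550.RD.Path
import Pool.Agent.R550.RD.Dist
import Pool.Agent.R550.RD.Comp
import Pool.Agent.R550.RD.Sound
import Pool.Agent.R550.RD.Pwi
import Pool.Agent.R550.RD.Palg
import Pool.Agent.R550.RD.Val
import Pool.Agent.R550.RD.If
import Pool.Agent.R550.RD.Only
import Pool.Agent.R550.RD.Pred

/-!
# `r`-Dominating Set parameterized by the size of a split modulator: W[2]-hard for `r = 2`,
fixed-parameter tractable for every `r ≥ 3`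
-/

namespace Pool.Agent.Results.MP_918064_lc.SplitModulatorDichotomy

open Pool.Agent.R550.RD Pool.Agent.H633R2 Pool.Agent.NPC

/-- Instances are `(M, l, X)` (graph, budget, split modulator), the parameter is `|X|`.
`2`-Dominating Set is W[2]-hard, and an fpt algorithm for it (correct on all instances where `X` is
a split modulator) would give an fpt algorithm for every problem in W[2]. For every `r ≥ 3`,
`r`-Dominating Set has an fpt algorithm. -/
theorem result :
    (W2Hard par (fun x => Valid x ∧ HasRDom 2 x) ∧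
      ((∃ d : Inst → Bool, FptTime par d ∧ ∀ x, Valid x → (d x = true ↔ HasRDom 2 x)) →
        ∀ (α : Type) [TEnc α] (κ : α → ℕ) (P : α → Prop), InW2 κ P → IsFpt κ P)) ∧
    ∀ r, 3 ≤ r → ∃ d : Inst → Bool, FptTime par d ∧
      ∀ x, Valid x → (d x = true ↔ HasRDom r x) :=
  ⟨⟨hard_ok val_ok (if_ok wi_ok) (only_ok wi_ok) pred_ok,
    collapse val_ok (if_ok wi_ok) (only_ok wi_ok) pred_ok⟩,
    fpt_ok (comp_ok wi_ok tr_ok path_ok dist_ok) (sound_ok wi_ok) (palg_ok pwi_ok)⟩

end Pool.Agent.Results.MP_918064_lc.SplitModulatorDichotomy
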